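import Pool.Agent.KS6_88.SB.Fail

set_option autoImplicit false
open MeasureTheory Filter Topology
open scoped ENNReal

namespace Pool.Agent.Results.MP_d895c5_an.OneWeight

/-- Young functions, as in the problem. -/
def Young (Φ : ℝ → ℝ) : Prop :=
  ConvexOn ℝ (Set.Ici 0) Φ ∧ MonotoneOn Φ (Set.Ici 0) ∧ Φ 0 = 0 ∧
    Filter.Tendsto (fun t => Φ t / t) Filter.atTop Filter.atTop

/-- The complementary function of `Φ` satisfies the `B_q` condition. -/
def ConjB (Φ : ℝ → ℝ) (q : ℝ) : Prop :=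
  (∫⁻ t in Set.Ioi (1:ℝ),
    ENNReal.ofReal ((⨆ s : Set.Ici (0:ℝ), (t * (s:ℝ) - Φ s)) * t ^ (-q) / t)) < ⊤

/-- Axis-parallel cubes. -/
def IsCube {d : ℕ} (Q : Set (Fin d → ℝ)) : Prop :=
  ∃ (a : Fin d → ℝ) (ℓ : ℝ), 0 < ℓ ∧ Q = Set.univ.pi (fun i => Set.Ico (a i) (a i + ℓ))

/-- The Luxemburg average of the nonnegative function `g` over `Q`. -/
noncomputable def lux {d : ℕ} (Φ : ℝ → ℝ) (g : (Fin d → ℝ) → ℝ) (Q : Set (Fin d → ℝ)) : ℝ≥0∞ :=
  sInf ((fun l : ℝ => ENNReal.ofReal l) ''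
    {l : ℝ | 0 < l ∧ ∫⁻ x in Q, ENNReal.ofReal (Φ (g x / l)) ≤ volume Q})

/-- The average of the nonnegative function `g` over `Q`. -/
noncomputable def avg {d : ℕ} (g : (Fin d → ℝ) → ℝ) (Q : Set (Fin d → ℝ)) : ℝ≥0∞ :=
  (∫⁻ x in Q, ENNReal.ofReal (g x)) / volume Q

/-- The fractional integral `I_α(f w)(x)`. -/
noncomputable def frac {d : ℕ} (α : ℝ) (w : (Fin d → ℝ) → ℝ) (f : (Fin d → ℝ) → ℝ≥0∞)
    (x : Fin d → ℝ) : ℝ≥0∞ :=
  ∫⁻ y, f y * ENNReal.ofReal (w y) *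
    ENNReal.ofReal (Real.sqrt (∑ i, (x i - y i) ^ 2) ^ (α - (d : ℝ)))

open Pool.Agent.KS6_88.SB in
/-- In every dimension `d ≥ 1` and for every order `0 < α < d` there is ONE weight `w` which, taken
as `u = σ = w`, refutes the separated bump conjecture for `I_α` for all exponents `1 < p < ∞` at
once; moreover `I_α(1_S w) ≥ C` on `S` for suitable sets `S` of finite positive `w`-measure and
arbitrary `C`, so that even the restricted weak type bounds fail. -/
theorem result (d : ℕ) (α : ℝ) (hd : 1 ≤ d) (hα : 0 < α) (hαd : α < (d:ℝ)) :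
    ∃ w : (Fin d → ℝ) → ℝ, (∀ x, 0 ≤ w x) ∧ LocallyIntegrable w volume ∧
      (∀ C : ℝ, ∃ S : Set (Fin d → ℝ), MeasurableSet S ∧ 0 < ∫⁻ x in S, ENNReal.ofReal (w x) ∧
        ∫⁻ x in S, ENNReal.ofReal (w x) < ⊤ ∧
        ∀ x ∈ S, ENNReal.ofReal C ≤ frac α w (S.indicator 1) x) ∧
      ∀ p : ℝ, 1 < p →
        (∃ Φ Ψ : ℝ → ℝ, Young Φ ∧ Young Ψ ∧ ConjB Φ p ∧ ConjB Ψ (p / (p - 1)) ∧
          (∃ K : ℝ, ∀ Q, IsCube Q → lux Φ (fun x => w x ^ (1 - 1 / p)) Q * avg w Q ^ (1 / p) *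
            volume Q ^ (α / (d:ℝ)) ≤ ENNReal.ofReal K) ∧
          (∃ K : ℝ, ∀ Q, IsCube Q → avg w Q ^ (1 - 1 / p) * lux Ψ (fun x => w x ^ (1 / p)) Q *
            volume Q ^ (α / (d:ℝ)) ≤ ENNReal.ofReal K)) ∧
        ¬ ∃ C : ℝ, ∀ f : (Fin d → ℝ) → ℝ≥0∞, Measurable f →
          ∫⁻ x, frac α w f x ^ p * ENNReal.ofReal (w x) ≤
            ENNReal.ofReal C * ∫⁻ y, f y ^ p * ENNReal.ofReal (w y) := by
  obtain ⟨r, θ, B, L, G, hL⟩ := exists_good d α hd hα hαd
  have hs : 0 < (d:ℝ) - α := by linarith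
  have hker : ∀ x y : Fin d → ℝ, Real.sqrt (∑ i, (x i - y i) ^ 2) ^ (α - (d : ℝ)) =
      kk ((d:ℝ) - α) x y := by
    intro x y
    unfold kk
    rw [neg_sub]
  have hmS : ∀ n, MeasurableSet (St d r B n) := St_meas
  set w : (Fin d → ℝ) → ℝ := ww (St d r B) (vv d r L) with hw
  have hlarge : ∀ C : ℝ, ∃ S : Set (Fin d → ℝ), MeasurableSet S ∧
        0 < ∫⁻ x in S, ENNReal.ofReal (w x) ∧
        ∫⁻ x in S, ENNReal.ofReal (w x) < ⊤ ∧
        ∀ x ∈ S, ENNReal.ofReal C ≤ frac α w (S.indicator 1) x := by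
    intro C
    have hc0 : 0 < c0 d ((d:ℝ) - α) := by
      unfold c0
      have : 0 < Real.sqrt (d:ℝ) := Real.sqrt_pos.2 (by exact_mod_cast hd)
      positivity
    obtain ⟨n, hn⟩ := aa_large hL _ C hc0
    refine ⟨St d r B n, hmS n, ?_, ?_, ?_⟩
    · rw [hw, mass_St G, ENNReal.ofReal_pos]; exact aa_pos n
    · rw [hw, mass_St G]; exact ENNReal.ofReal_lt_top
    · intro x hx
      unfold frac
      simp only [hker]
      exact (ENNReal.ofReal_le_ofReal hn).trans (riesz_lower G hs n x hx)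
  refine ⟨w, ww_nonneg, ww_locInt G, hlarge, fun p hp => ⟨?_, ?_⟩⟩
  · have hp0 : 0 < p := by linarith
    have hp1 : 0 < p - 1 := by linarith
    set q : ℝ := p / (p - 1) with hq
    have hq1 : 1 < q := by rw [hq, lt_div_iff₀ hp1]; linarith
    have hiq : 1 / q = 1 - 1 / p := by rw [hq]; field_simp
    have hqq : q / (q - 1) = p := by
      have : q - 1 = 1 / (p - 1) := by rw [hq]; field_simp; ring
      rw [this, hq]; field_simp
    have hip0 : 0 < 1 / p := by positivity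
    have hip1 : 1 / p < 1 := by rw [div_lt_one hp0]; exact hp
    obtain ⟨γ, hγa, hγ1⟩ : ∃ γ : ℝ, max (1 / p) (1 - 1 / p) < γ ∧ γ < 1 :=
      exists_between (max_lt hip1 (by linarith))
    have hγp : 1 / p < γ := lt_of_le_of_lt (le_max_left _ _) hγa
    have hγp' : 1 - 1 / p < γ := lt_of_le_of_lt (le_max_right _ _) hγa
    have hγ0 : 0 < γ := by linarith
    have hγq : q - 1 < γ * q := by
      have : 1 - 1 / q < γ := by rw [hiq]; linarith
      have h2 : (1 - 1 / q) * q = q - 1 := by field_simp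
      rw [← h2]
      exact mul_lt_mul_of_pos_right this (by linarith)
    have hγp2 : p - 1 < γ * p := by
      have h2 : (1 - 1 / p) * p = p - 1 := by field_simp
      rw [← h2]
      exact mul_lt_mul_of_pos_right hγp' hp0
    obtain ⟨K, hK⟩ := massB G hγ0 hγ1
    refine ⟨Phi q γ, Phi p γ, ⟨Phi_convex, fun a _ b _ h => Phi_mono h, Phi_zero,
      Phi_superlinear hq1 (by positivity)⟩, ⟨Phi_convex, fun a _ b _ h => Phi_mono h, Phi_zero,
      Phi_superlinear hp (by positivity)⟩, ?_, conj_B hp hγp2, ?_, ?_⟩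
    · have := conj_B hq1 hγq
      rw [hqq] at this
      exact this
    · refine ⟨Cq q ^ (1 / q) * K, ?_⟩
      rintro Q ⟨a, ℓ, hℓ, rfl⟩
      obtain ⟨A, M, hA, hmass, hMM, hfin⟩ := hK a ℓ hℓ
      obtain ⟨l, hl0, hl1, hl2⟩ := bump (α := α) St_meas (St_disj G) (vv_pos G.h0) hq1
        (show 0 ≤ γ * q by positivity) hd a ℓ hℓ A hA M hmass hMM
      rw [hiq] at hl1 hl2
      have hsub : 1 - (1 - 1 / p) = 1 / p := by ring
      rw [hsub, ← hiq] at hl2
      have hlux : lux (Phi q γ) (fun x => w x ^ (1 - 1 / p)) (cube a ℓ) ≤ ENNReal.ofReal l := by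
        apply sInf_le
        exact ⟨l, ⟨hl0, hl1⟩, rfl⟩
      refine le_trans ?_ (hl2.trans (ENNReal.ofReal_le_ofReal ?_))
      · show lux (Phi q γ) (fun x => w x ^ (1 - 1 / p)) (cube a ℓ) * avg w (cube a ℓ) ^ (1 / p) *
          volume (cube a ℓ) ^ (α / (d:ℝ)) ≤ _
        unfold avg
        gcongr
      · have h3 : 0 < Cq q := Cq_pos hq1
        have h4 : -((d:ℝ) - α) = α - d := by ring
        rw [h4] at hfin
        gcongr
    · refine ⟨Cq p ^ (1 / p) * K, ?_⟩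
      rintro Q ⟨a, ℓ, hℓ, rfl⟩
      obtain ⟨A, M, hA, hmass, hMM, hfin⟩ := hK a ℓ hℓ
      obtain ⟨l, hl0, hl1, hl2⟩ := bump (α := α) St_meas (St_disj G) (vv_pos G.h0) hp
        (show 0 ≤ γ * p by positivity) hd a ℓ hℓ A hA M hmass hMM
      have hlux : lux (Phi p γ) (fun x => w x ^ (1 / p)) (cube a ℓ) ≤ ENNReal.ofReal l := by
        apply sInf_le
        exact ⟨l, ⟨hl0, hl1⟩, rfl⟩
      refine le_trans ?_ (hl2.trans (ENNReal.ofReal_le_ofReal ?_))
      · show avg w (cube a ℓ) ^ (1 - 1 / p) * lux (Phi p γ) (fun x => w x ^ (1 / p)) (cube a ℓ) *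
          volume (cube a ℓ) ^ (α / (d:ℝ)) ≤ _
        rw [mul_comm (avg w (cube a ℓ) ^ (1 - 1 / p))]
        unfold avg
        gcongr
      · have h3 : 0 < Cq p := Cq_pos hp
        have h4 : -((d:ℝ) - α) = α - d := by ring
        rw [h4] at hfin
        gcongr
  · rintro ⟨C, hC⟩
    have hp0 : 0 < p := by linarith
    obtain ⟨S, hSm, hS0, hS1, hSl⟩ := hlarge (max C 0 + 1)
    have h1 := hC (S.indicator 1) (measurable_one.indicator hSm)
    have hR : ∫⁻ y, S.indicator (1 : (Fin d → ℝ) → ℝ≥0∞) y ^ p * ENNReal.ofReal (w y) =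
        ∫⁻ y in S, ENNReal.ofReal (w y) := by
      rw [← lintegral_indicator hSm]
      apply lintegral_congr
      intro y
      by_cases hy : y ∈ S
      · rw [Set.indicator_of_mem hy, Set.indicator_of_mem hy]; simp
      · rw [Set.indicator_of_notMem hy, Set.indicator_of_notMem hy]; simp [hp0]
    rw [hR] at h1
    have hLo : ENNReal.ofReal (max C 0 + 1) ^ p * ∫⁻ y in S, ENNReal.ofReal (w y) ≤
        ∫⁻ x, frac α w (S.indicator 1) x ^ p * ENNReal.ofReal (w x) := by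
      rw [← lintegral_const_mul _ (meas_ww St_meas).ennreal_ofReal]
      refine le_trans (setLIntegral_mono' hSm ?_) (lintegral_mono' Measure.restrict_le_self le_rfl)
      intro x hx
      gcongr
      exact hSl x hx
    have h2 := hLo.trans h1
    rw [ENNReal.mul_le_mul_iff_left hS0.ne' hS1.ne] at h2
    have hx0 : 0 ≤ max C 0 := le_max_right _ _
    rw [ENNReal.ofReal_rpow_of_nonneg (by positivity) hp0.le,
      ENNReal.ofReal_le_ofReal_iff' ] at h2
    have h3 : max C 0 + 1 ≤ (max C 0 + 1) ^ p := by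
      calc max C 0 + 1 = (max C 0 + 1) ^ (1:ℝ) := (Real.rpow_one _).symm
        _ ≤ _ := Real.rpow_le_rpow_of_exponent_le (by linarith) hp.le
    rcases h2 with h2 | h2
    · linarith [le_max_left C 0]
    · linarith

end Pool.Agent.Results.MP_d895c5_an.OneWeight
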